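import Pool.Agent.Lib.MP_085bfa_gt.Assemble

/-!
# `Sn^{SM₀}(X, τ) ≤ dim X + 1` for separable metrizable spaces
-/

set_option autoImplicit false

open Set TopologicalSpace Filter Topology
open Pool.Agent.Lib.MP_085bfa_gt

namespace Pool.Agent.Results.MP_085bfa_gt.StructuralNumber

universe u

lemma nonempty_of_coveringDimension {X : Type u} [TopologicalSpace X] {n : ℕ}
    (h : coveringDimension X = n) : Nonempty X := by
  by_contra hX
  rw [not_nonempty_iff] at hX
  have h1 : coveringDimension X ≤ ⊥ := by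
    refine sInf_le fun i _ => ?_
    intro 𝒰 _ _ _
    exact ⟨∅, finite_empty, by simp, by
      rw [univ_eq_empty_iff.2 hX]; simp, by simp, fun x => isEmptyElim x⟩
  rw [h, le_bot_iff] at h1
  exact absurd h1 (WithBot.coe_ne_bot)

lemma general (n : ℕ) (X : Type u) [τ : TopologicalSpace X] [SeparableSpace X]
    [MetrizableSpace X] (h : coveringDimension X = n) :
    structuralNumber IsSM0 X τ ≤ (((n + 1 : ℕ) : Cardinal.{u}) : WithTop Cardinal.{u}) := by
  classical
  have : Nonempty X := nonempty_of_coveringDimension h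
  have : SecondCountableTopology X := by
    let _ := metrizableSpaceMetric X
    exact UniformSpace.secondCountable_of_separable X
  have hX : CoveringDimensionLT X (n + 1) := by
    refine CoveringDimensionLT.of_coveringDimension_lt ?_
    rw [h]
    exact_mod_cast n.lt_succ_self
  let B := countableBasis X
  have hB : IsTopologicalBasis B := isBasis_countableBasis X
  let P := {p : B × B // closure (p.1 : Set X) ⊆ (p.2 : Set X)}
  have : Countable B := (countable_countableBasis X).to_subtype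
  obtain ⟨O, hO, hFO, hOU, hord⟩ := exists_countable hX (ι := P × Fin (n + 1))
    (fun k => closure (k.1.1.1 : Set X)) (fun k => (k.1.1.2 : Set X))
    (fun k => isClosed_closure) (fun k => hB.isOpen k.1.1.2.2) (fun k => k.1.2)
  refine structuralNumber_le_of_bases (P := fun _ => P) (fun c p => O (p, c))
    (fun c p => hO _) (fun c x U hU hx => ?_) (fun x => ?_)
  · obtain ⟨B', hB', hxB', hB'U⟩ := hB.exists_subset_of_mem_open hx hU
    obtain ⟨B'', hB'', hxB'', hcl⟩ := hB.exists_closure_subset ((hB.isOpen hB').mem_nhds hxB')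
    let p : P := ⟨(⟨B'', hB''⟩, ⟨B', hB'⟩), hcl⟩
    exact ⟨p, hFO (p, c) (subset_closure hxB''), (subset_closure.trans (hOU (p, c))).trans hB'U⟩
  · by_contra hcon
    push Not at hcon
    choose p hp using hcon
    have hinj : Function.Injective fun c : Fin (n + 1) => (p c, c) := fun a b hab =>
      congrArg Prod.snd hab
    obtain ⟨k, hk, hkx⟩ := hord (Finset.univ.map ⟨_, hinj⟩)
      (by rw [Finset.card_map, Finset.card_univ, Fintype.card_fin]) x
    obtain ⟨c, _, rfl⟩ := Finset.mem_map.1 hk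
    exact hkx (hp c)

lemma euclidean (d : ℕ) :
    structuralNumber IsSM0 (EuclideanSpace ℝ (Fin d)) inferInstance ≤
      (((d + 1 : ℕ) : Cardinal.{0}) : WithTop Cardinal.{0}) := by
  classical
  have hcoord : ∀ i : Fin d, Continuous fun x : EuclideanSpace ℝ (Fin d) => x i := fun i => by
    fun_prop
  let O : ∀ c : Fin (d + 1), (Fin d → ℚ × ℚ) → Set (EuclideanSpace ℝ (Fin d)) := fun c p =>
    {x | ∀ i, ((p i).1 : ℝ) + c * √2 < x i ∧ x i < ((p i).2 : ℝ) + c * √2}
  have hO : ∀ c p, IsOpen (O c p) := by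
    intro c p
    have : O c p = ⋂ i, {x : EuclideanSpace ℝ (Fin d) |
        ((p i).1 : ℝ) + c * √2 < x i ∧ x i < ((p i).2 : ℝ) + c * √2} := by
      ext x; simp [O]
    rw [this]
    exact isOpen_iInter_of_finite fun i =>
      (isOpen_lt continuous_const (hcoord i)).inter (isOpen_lt (hcoord i) continuous_const)
  refine structuralNumber_le_of_bases (P := fun _ => Fin d → ℚ × ℚ) O hO ?_ ?_
  · intro c x U hU hx
    let e := (EuclideanSpace.equiv (Fin d) ℝ).toHomeomorph
    have hU' : IsOpen (e.symm ⁻¹' U) := hU.preimage e.symm.continuous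
    have hx' : e x ∈ e.symm ⁻¹' U := by
      show e.symm (e x) ∈ U
      rwa [e.symm_apply_apply]
    obtain ⟨ε, hε, hball⟩ := Metric.isOpen_iff.1 hU' _ hx'
    have h1 : ∀ i, ∃ q : ℚ × ℚ, x i - ε < q.1 + c * √2 ∧ (q.1 : ℝ) + c * √2 < x i ∧
        x i < q.2 + c * √2 ∧ (q.2 : ℝ) + c * √2 < x i + ε := by
      intro i
      obtain ⟨a, ha1, ha2⟩ := exists_rat_btwn
        (show x i - ε - c * √2 < x i - c * √2 by linarith)
      obtain ⟨b, hb1, hb2⟩ := exists_rat_btwn
        (show x i - c * √2 < x i + ε - c * √2 by linarith)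
      refine ⟨(a, b), ?_, ?_, ?_, ?_⟩ <;> simp only <;> linarith
    choose q hq1 hq2 hq3 hq4 using h1
    refine ⟨q, fun i => ⟨hq2 i, hq3 i⟩, fun y hy => ?_⟩
    have hy' : e y ∈ Metric.ball (e x) ε := by
      rw [Metric.mem_ball, dist_pi_lt_iff hε]
      intro i
      show dist (y i) (x i) < ε
      rw [Real.dist_eq, abs_lt]
      have := hy i
      have := hq1 i
      have := hq4 i
      constructor <;> linarith
    have h2 : e.symm (e y) ∈ U := hball hy'
    rwa [e.symm_apply_apply] at h2
  · intro x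
    by_contra hcon
    push Not at hcon
    have h1 : ∀ c : Fin (d + 1), ∃ (i : Fin d) (q : ℚ), x i = q + c * √2 := by
      intro c
      obtain ⟨p, hp⟩ := hcon c
      rw [(hO c p).frontier_eq] at hp
      have h2 : O c p ⊆ ⋂ i, {x : EuclideanSpace ℝ (Fin d) |
          ((p i).1 : ℝ) + c * √2 ≤ x i ∧ x i ≤ ((p i).2 : ℝ) + c * √2} := by
        intro y hy
        exact mem_iInter.2 fun i => ⟨(hy i).1.le, (hy i).2.le⟩
      have h3 : IsClosed (⋂ i, {x : EuclideanSpace ℝ (Fin d) |
          ((p i).1 : ℝ) + c * √2 ≤ x i ∧ x i ≤ ((p i).2 : ℝ) + c * √2}) :=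
        isClosed_iInter fun i =>
          (isClosed_le continuous_const (hcoord i)).inter (isClosed_le (hcoord i) continuous_const)
      have h4 := closure_minimal h2 h3 hp.1
      have h5 : ¬ ∀ i, ((p i).1 : ℝ) + c * √2 < x i ∧ x i < ((p i).2 : ℝ) + c * √2 := hp.2
      push Not at h5
      obtain ⟨i, hi⟩ := h5
      obtain ⟨h6, h7⟩ := mem_iInter.1 h4 i
      refine ⟨i, ?_⟩
      rcases h6.eq_or_lt with h8 | h8
      · exact ⟨(p i).1, h8.symm⟩
      · exact ⟨(p i).2, le_antisymm h7 (hi h8)⟩
    choose i q hiq using h1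
    obtain ⟨c, c', hne, hcc⟩ := Fintype.exists_ne_map_eq_of_card_lt i (by simp)
    have h2 : (q c : ℝ) + c * √2 = q c' + c' * √2 := by
      rw [← hiq c, ← hiq c', hcc]
    have h3 : ((c : ℤ) - (c' : ℤ) : ℤ) ≠ 0 := by
      intro h
      apply hne
      apply Fin.ext
      omega
    have h4 : Irrational ((((c : ℤ) - (c' : ℤ) : ℤ) : ℝ) * √2) :=
      irrational_sqrt_two.intCast_mul h3
    refine h4 ⟨q c' - q c, ?_⟩
    push_cast
    linarith

/-- For every separable metrizable space `(X, τ)` with `dim (X, τ) = n`, the topology `τ` is the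
intersection of at most `n + 1` separable metrizable zero-dimensional extensions, i.e.
`Sn^{SM₀}(X, τ) ≤ n + 1`; and `Sn^{SM₀}(ℝ^d, τ_E) ≤ d + 1` for every `d` (in particular
`Sn^{SM₀}(ℝ², τ_E) ≤ 3`). -/
theorem result :
    (∀ (n : ℕ) (X : Type u) (τ : TopologicalSpace X), @SeparableSpace X τ →
      @MetrizableSpace X τ → @coveringDimension X τ = n →
      structuralNumber IsSM0 X τ ≤ (((n + 1 : ℕ) : Cardinal.{u}) : WithTop Cardinal.{u})) ∧
    (∀ d : ℕ, structuralNumber IsSM0 (EuclideanSpace ℝ (Fin d)) inferInstance ≤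
      (((d + 1 : ℕ) : Cardinal.{0}) : WithTop Cardinal.{0})) :=
  ⟨fun n X _ _ _ h => general n X h, euclidean⟩

end Pool.Agent.Results.MP_085bfa_gt.StructuralNumber
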